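import Pool.Agent.X163.KB

/-!
# Brauer's `k(B)` conjecture with an additive error term

Let `k` be an algebraically closed field of characteristic `p`. A block `B` of a finite group `G` is given by
a primitive central idempotent `e` of `k G`, `k(B)` is the dimension of `Z(kG) e`, and the order of a defect
group is the smallest order of a subgroup `D` such that `e` is in the image of the trace map `Tr_D^G` (this
is the way in which the frozen statement puts it).

Theorem. Let `P` be a class of blocks (over `k`) which contains with each block `B` of `G` the blocks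
`B ⊗ kA` of `G × A`, where `A` is a cyclic `p`-group (for example all blocks, the principal blocks, the
blocks with abelian defect groups, or the blocks of the groups with a given quotient `G / Z(G)`). Then the
following are equivalent:
* `k(B) ≤ |D|` for all blocks `B` in `P`, with defect group `D`;
* for every `ε > 0` there is a constant `C` with `k(B) ≤ (1 + ε) |D| + C` for all blocks `B` in `P`.
The same holds for the bounds `k(B) ≤ c |D|` and `k(B) ≤ (c + ε) |D| + C`, for every real number `c ≥ 0`.

As `k(B)` is at most `|D|^2` (Brauer and Feit), the second condition holds if for every `ε > 0` there is `N`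
with `k(B) ≤ (1 + ε) |D|` for all `B` in `P` with `|D| ≥ N`. So Brauer's conjecture holds for all blocks if
`limsup k(B) / |D| ≤ 1` for `|D| → ∞`.

Proof. `1` is a block of `k A`, because `f^|A|` is a constant for all `f` in `k A`. So `B ⊗ kA` is a block,
`k(B ⊗ kA) ≥ k(B) |A|`, and its defect groups have order at most `|D| |A|`. Then let `|A|` go to infinity.
-/

set_option autoImplicit false

namespace Pool.Agent.Results.MP_a15589_al.Additive

open Pool.Agent.Results.MP_a15589_al.Asymptotic (Blk kB IsDefect)
open Pool.Agent.X163.KB (cyc)

/-- **Brauer's `k(B)` conjecture with an additive error term.** -/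
theorem result (p : ℕ) [Fact p.Prime] (k : Type) [Field k] [IsAlgClosed k] [CharP k p]
    (P : Blk k → Prop) (hP : ∀ b, P b → ∀ n : ℕ, P (cyc p n b)) :
    ((∀ b : Blk k, P b → ∀ D : Subgroup b.G, IsDefect b.e D → kB b.e ≤ Nat.card D) ↔
      ∀ ε : ℝ, 0 < ε → ∃ C : ℝ, ∀ b : Blk k, P b → ∀ D : Subgroup b.G, IsDefect b.e D →
        (kB b.e : ℝ) ≤ (1 + ε) * Nat.card D + C) ∧
    ∀ c : ℝ, 0 ≤ c →
      ((∀ b : Blk k, P b → ∀ D : Subgroup b.G, IsDefect b.e D → (kB b.e : ℝ) ≤ c * Nat.card D) ↔
      ∀ ε : ℝ, 0 < ε → ∃ C : ℝ, ∀ b : Blk k, P b → ∀ D : Subgroup b.G, IsDefect b.e D →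
        (kB b.e : ℝ) ≤ (c + ε) * Nat.card D + C) := by
  refine ⟨?_, fun c hc => Pool.Agent.X163.KB.general p P hP c hc⟩
  have h := Pool.Agent.X163.KB.general p P hP 1 zero_le_one
  simp only [one_mul, Nat.cast_le] at h
  exact h

end Pool.Agent.Results.MP_a15589_al.Additive
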