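import Pool.Agent.X163.KB2

/-!
# Brauer's `k(B)` conjecture: almost all blocks suffice

Let `k` be an algebraically closed field of characteristic `p`. A block `B` of a finite group `G` is given by
a primitive central idempotent `e` of `k G` (`IsBlock`), `k(B)` is the dimension of `Z(kG) e` (`kB e`), and the order of a
defect group is the smallest order of a subgroup `D` such that `e` is in the image of the trace map `Tr_D^G`
(`IsDefect e D`); this is the way in which the frozen statement puts it.

For a finite group `G` (`x : Gp`), a real number `c` and `d : ℕ` let `badK k c d x` be the number of the blocks `B` of `k G`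
with defect groups `D` of order at most `d` and `k(B) > c |D|`.

Theorem. Let `q > 1` be prime to `p` and `P` a class of finite groups closed under `G ↦ G × C_q` (for example all finite
groups). Then `k(B) ≤ |D|` for all blocks of all groups in `P` if and only if for every `ε > 0` and every `d` the number of
the blocks of `G` with defect groups of order at most `d` and `k(B) > |D|` is at most `ε |G|` for all large groups `G` in `P`.
The same holds for the bound `k(B) ≤ c |D|`, for every real number `c ≥ 0`.

Proof. The group algebra of `C_q` is a direct product of `q` copies of `k`, so each block `B` of `G` gives `q` blocks of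
`G × C_q`, with the same `k(B)` and the same defect group. We apply this to the groups `G × C_q^n`.
-/

set_option autoImplicit false

namespace Pool.Agent.Results.MP_a15589_al.AlmostAllBlocks

open Pool.Agent.X27.Blk (IsBlock)
open Pool.Agent.Results.MP_a15589_al.Asymptotic Pool.Agent.X163.KB

theorem result (k : Type) [Field k] [IsAlgClosed k] (p : ℕ) (_ : p.Prime) [CharP k p] (q : ℕ) (hq1 : 1 < q)
    (hq : ¬ p ∣ q) [NeZero q] (P : Gp → Prop) (hP : ∀ x, P x → P (x.mul q)) :
    ((∀ x, P x → ∀ e : MonoidAlgebra k x.G, IsBlock e → ∀ D : Subgroup x.G, IsDefect e D →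
        kB e ≤ Nat.card D) ↔
      ∀ ε : ℝ, 0 < ε → ∀ d : ℕ, ∃ N : ℕ, ∀ x, P x → N ≤ Nat.card x.G →
        (badK k 1 d x : ℝ) ≤ ε * Nat.card x.G) ∧
    ∀ c : ℝ, 0 ≤ c →
      ((∀ x, P x → ∀ e : MonoidAlgebra k x.G, IsBlock e → ∀ D : Subgroup x.G, IsDefect e D →
        (kB e : ℝ) ≤ c * Nat.card D) ↔
      ∀ ε : ℝ, 0 < ε → ∀ d : ℕ, ∃ N : ℕ, ∀ x, P x → N ≤ Nat.card x.G →
        (badK k c d x : ℝ) ≤ ε * Nat.card x.G) := by
  have hq' : (q : k) ≠ 0 := by
    rw [Ne, CharP.cast_eq_zero_iff k p]
    exact hq
  refine ⟨?_, fun c hc => mainK c hc q hq1 hq' P hP⟩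
  rw [← mainK (k := k) 1 zero_le_one q hq1 hq' P hP]
  refine forall_congr' fun x => forall_congr' fun _ => forall_congr' fun e => forall_congr' fun _ =>
    forall_congr' fun D => forall_congr' fun _ => ?_
  rw [one_mul, Nat.cast_le]

end Pool.Agent.Results.MP_a15589_al.AlmostAllBlocks
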