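import Pool.Agent.X27.Blk.Box

/-!
# Brauer's `k(B)` conjecture is equivalent to an asymptotic form of it

Let `k` be an algebraically closed field of characteristic `p`. A block `B` of a finite group `G` is given by
a primitive central idempotent `e` of `k G`, `k(B)` is the dimension of `Z(kG) e`, and the order of a defect group is
the smallest order of a subgroup `D` such that `e` is in the image of the trace map `Tr_D^G` (this is the way in which
the frozen statement puts it).

Theorem. Let `P` be a class of blocks (over `k`) which contains with each block `B` of `G` the block `B ⊗ B` of `G × G`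
(for example all blocks, the principal blocks, or the blocks with abelian defect groups). Then the following are
equivalent:
* `k(B) ≤ |D|` for all blocks `B` in `P`, with defect group `D`;
* for every `ε > 0` there is a constant `C` with `k(B) ≤ C |G|^ε |D|` for all blocks `B` in `P`.
The same holds for the bounds `k(B) ≤ |D|^c` and `k(B) ≤ C |G|^ε |D|^c`, for every real number `c ≥ 0`.

Proof. `B ⊗ B` is a block of `G × G` (as `k` is algebraically closed, `Z(kG) e` is local with residue field `k`),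
`k(B ⊗ B) ≥ k(B)^2`, and `e ⊗ e` is a trace from `D × D`, so its defect groups have order at most `|D|^2`. We
apply the second bound to the tensor powers of `B` of order `2 ^ n` and let `n` go to infinity, and then `ε` to `0`.
-/

set_option autoImplicit false

open Finset hiding box

namespace Pool.Agent.Results.MP_a15589_al.Asymptotic

open Pool.Agent.X27.Blk (box IsBlock i1 i2 box_mul box_central coeff_box of_pair isBlock_box)

variable {k : Type} [Field k]

/-- `e` is in the image of the trace map from the elements of `k G` which are fixed by `Q`. -/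
def InTrace {G : Type} [Group G] (e : MonoidAlgebra k G) (Q : Subgroup G) : Prop :=
  ∃ a : MonoidAlgebra k G,
    (∀ q ∈ Q, MonoidAlgebra.of k G q * a = a * MonoidAlgebra.of k G q) ∧
    e = ∑ᶠ x : G ⧸ Q, MonoidAlgebra.of k G (Quotient.out x) * a *
      MonoidAlgebra.of k G (Quotient.out x)⁻¹

/-- `D` has the smallest order of all subgroups with this property, which is the order of the defect groups. -/
def IsDefect {G : Type} [Group G] (e : MonoidAlgebra k G) (D : Subgroup G) : Prop :=
  InTrace e D ∧ ∀ Q : Subgroup G, InTrace e Q → Nat.card D ≤ Nat.card Q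

/-- `k(B)`: the dimension of `Z(k G) e`. -/
noncomputable def kB {G : Type} [Group G] (e : MonoidAlgebra k G) : ℕ :=
  Module.finrank k (Submodule.map (LinearMap.mulRight k e)
    (Subalgebra.toSubmodule (Subalgebra.center k (MonoidAlgebra k G))))

variable (k) in
/-- A block of a finite group. -/
structure Blk where
  /-- The group. -/
  G : Type
  [grp : Group G]
  [fin : Finite G]
  /-- The idempotent. -/
  e : MonoidAlgebra k G
  isBlock : IsBlock e

attribute [instance] Blk.grp Blk.fin

/-- The block `B ⊗ B` of `G × G`. -/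
noncomputable def Blk.sq [IsAlgClosed k] (b : Blk k) : Blk k :=
  ⟨b.G × b.G, box b.e b.e, isBlock_box b.isBlock b.isBlock⟩

section
variable {G H : Type} [Group G] [Group H] [Finite G] [Finite H]

theorem kB_box (e : MonoidAlgebra k G) (f : MonoidAlgebra k H) : kB e * kB f ≤ kB (box e f) := by
  have hfd : FiniteDimensional k (MonoidAlgebra k G) :=
    Module.Finite.equiv (MonoidAlgebra.coeffLinearEquiv k).symm
  have hfd2 : FiniteDimensional k (MonoidAlgebra k H) :=
    Module.Finite.equiv (MonoidAlgebra.coeffLinearEquiv k).symm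
  have hfd3 : FiniteDimensional k (MonoidAlgebra k (G × H)) :=
    Module.Finite.equiv (MonoidAlgebra.coeffLinearEquiv k).symm
  unfold kB
  set V := Submodule.map (LinearMap.mulRight k e)
    (Subalgebra.toSubmodule (Subalgebra.center k (MonoidAlgebra k G))) with hV
  set W := Submodule.map (LinearMap.mulRight k f)
    (Subalgebra.toSubmodule (Subalgebra.center k (MonoidAlgebra k H))) with hW
  set T := Submodule.map (LinearMap.mulRight k (box e f))
    (Subalgebra.toSubmodule (Subalgebra.center k (MonoidAlgebra k (G × H)))) with hT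
  let u := Module.finBasis k V
  let v := Module.finBasis k W
  have hmem : ∀ (a : V) (b : W), box (a : MonoidAlgebra k G) (b : MonoidAlgebra k H) ∈ T := by
    rintro ⟨a, z, hz, rfl⟩ ⟨b, w, hw, rfl⟩
    refine ⟨box z w, ?_, ?_⟩
    · show box z w ∈ Subalgebra.center k (MonoidAlgebra k (G × H))
      rw [Subalgebra.mem_center_iff]
      exact box_central ((Subalgebra.mem_center_iff (R := k)).1 hz)
        ((Subalgebra.mem_center_iff (R := k)).1 hw)
    · show box z w * box e f = box (z * e) (w * f)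
      rw [box_mul]
  let w : Fin (Module.finrank k V) × Fin (Module.finrank k W) → T :=
    fun p => ⟨box (u p.1 : MonoidAlgebra k G) (v p.2 : MonoidAlgebra k H), hmem _ _⟩
  have hli : LinearIndependent k w := by
    rw [Fintype.linearIndependent_iff]
    intro c hc
    have h0 : ∀ (g : G) (h : H), ∑ p, c p * ((u p.1 : MonoidAlgebra k G).coeff g *
        (v p.2 : MonoidAlgebra k H).coeff h) = 0 := by
      intro g h
      have h1 := congrArg (fun x : T => (x : MonoidAlgebra k (G × H)).coeff (g, h)) hc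
      simp only [w, Submodule.coe_sum, Submodule.coe_smul, MonoidAlgebra.coeff_sum, Finsupp.finsetSum_apply,
        MonoidAlgebra.coeff_smul_apply, coeff_box, smul_eq_mul, Submodule.coe_zero,
        MonoidAlgebra.coeff_zero, Finsupp.coe_zero, Pi.zero_apply] at h1
      exact h1
    have h1 : ∀ (h : H) (i : Fin (Module.finrank k V)),
        ∑ j, c (i, j) * (v j : MonoidAlgebra k H).coeff h = 0 := by
      intro h
      have h2 : ∑ i, (∑ j, c (i, j) * (v j : MonoidAlgebra k H).coeff h) • u i = 0 := by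
        apply Subtype.ext
        ext g
        simp only [Submodule.coe_sum, Submodule.coe_smul, MonoidAlgebra.coeff_sum, Finsupp.finsetSum_apply,
          MonoidAlgebra.coeff_smul_apply, smul_eq_mul, Submodule.coe_zero, MonoidAlgebra.coeff_zero,
          Finsupp.coe_zero, Pi.zero_apply]
        rw [← h0 g h, Fintype.sum_prod_type]
        refine sum_congr rfl fun i _ => ?_
        rw [sum_mul]
        refine sum_congr rfl fun j _ => ?_
        ring
      exact fun i => Fintype.linearIndependent_iff.1 u.linearIndependent _ h2 i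
    rintro ⟨i, j⟩
    have h2 : ∑ j, c (i, j) • v j = 0 := by
      apply Subtype.ext
      ext h
      simp only [Submodule.coe_sum, Submodule.coe_smul, MonoidAlgebra.coeff_sum, Finsupp.finsetSum_apply,
        MonoidAlgebra.coeff_smul_apply, smul_eq_mul, Submodule.coe_zero, MonoidAlgebra.coeff_zero,
        Finsupp.coe_zero, Pi.zero_apply]
      exact h1 h i
    exact Fintype.linearIndependent_iff.1 v.linearIndependent _ h2 j
  have h3 := hli.fintype_card_le_finrank
  rw [Fintype.card_prod, Fintype.card_fin, Fintype.card_fin] at h3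
  exact h3

omit [Finite G] in
theorem conj_inv {Q : Subgroup G} {a : MonoidAlgebra k G}
    (ha : ∀ q ∈ Q, MonoidAlgebra.of k G q * a = a * MonoidAlgebra.of k G q) {x y : G}
    (h : (x : G ⧸ Q) = y) : MonoidAlgebra.of k G x * a * MonoidAlgebra.of k G x⁻¹ =
      MonoidAlgebra.of k G y * a * MonoidAlgebra.of k G y⁻¹ := by
  rw [QuotientGroup.eq] at h
  have h1 := ha _ h
  have h2 : MonoidAlgebra.of k G y = MonoidAlgebra.of k G x * MonoidAlgebra.of k G (x⁻¹ * y) := by
    rw [← map_mul, mul_inv_cancel_left]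
  have h3 : MonoidAlgebra.of k G (x⁻¹ * y) * MonoidAlgebra.of k G y⁻¹ = MonoidAlgebra.of k G x⁻¹ := by
    rw [← map_mul, mul_assoc, mul_inv_cancel, mul_one]
  rw [h2, mul_assoc (MonoidAlgebra.of k G x) (MonoidAlgebra.of k G (x⁻¹ * y)) a, h1, ← mul_assoc,
    mul_assoc _ _ (MonoidAlgebra.of k G y⁻¹), h3]

theorem inTrace_box {e : MonoidAlgebra k G} {f : MonoidAlgebra k H} {Q : Subgroup G} {R : Subgroup H}
    (he : InTrace e Q) (hf : InTrace f R) : InTrace (box e f) (Q.prod R) := by
  have : Fintype (G ⧸ Q) := Fintype.ofFinite _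
  have : Fintype (H ⧸ R) := Fintype.ofFinite _
  have : Fintype ((G × H) ⧸ (Q.prod R)) := Fintype.ofFinite _
  obtain ⟨a, ha, rfl⟩ := he
  obtain ⟨b, hb, rfl⟩ := hf
  refine ⟨box a b, ?_, ?_⟩
  · rintro ⟨q, r⟩ hqr
    rw [Subgroup.mem_prod] at hqr
    rw [of_pair, box_mul, box_mul, ha q hqr.1, hb r hqr.2]
  · rw [finsum_eq_sum_of_fintype, finsum_eq_sum_of_fintype, finsum_eq_sum_of_fintype]
    have e1 : box (∑ x : G ⧸ Q, MonoidAlgebra.of k G (Quotient.out x) * a *
        MonoidAlgebra.of k G (Quotient.out x)⁻¹) (∑ y : H ⧸ R, MonoidAlgebra.of k H (Quotient.out y) * b *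
        MonoidAlgebra.of k H (Quotient.out y)⁻¹) =
        ∑ p : (G ⧸ Q) × (H ⧸ R), box (MonoidAlgebra.of k G (Quotient.out p.1) * a *
          MonoidAlgebra.of k G (Quotient.out p.1)⁻¹) (MonoidAlgebra.of k H (Quotient.out p.2) * b *
          MonoidAlgebra.of k H (Quotient.out p.2)⁻¹) := by
      unfold Pool.Agent.X27.Blk.box
      rw [map_sum, map_sum, Fintype.sum_prod_type, sum_mul]
      refine sum_congr rfl fun x _ => ?_
      rw [mul_sum]
    rw [e1]
    symm
    let φ : (G × H) ⧸ (Q.prod R) → (G ⧸ Q) × (H ⧸ R) := fun x =>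
      (((Quotient.out x : G × H).1 : G ⧸ Q), ((Quotient.out x : G × H).2 : H ⧸ R))
    have hφ : Function.Bijective φ := by
      constructor
      · intro x y hxy
        have h1 : ((Quotient.out x : G × H).1 : G ⧸ Q) = (Quotient.out y : G × H).1 :=
          congrArg Prod.fst hxy
        have h2 : ((Quotient.out x : G × H).2 : H ⧸ R) = (Quotient.out y : G × H).2 :=
          congrArg Prod.snd hxy
        rw [QuotientGroup.eq] at h1 h2
        rw [← Quotient.out_eq x, ← Quotient.out_eq y]
        exact QuotientGroup.eq.2 (Subgroup.mem_prod.2 ⟨h1, h2⟩)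
      · rintro ⟨y, z⟩
        refine ⟨(((Quotient.out y : G), (Quotient.out z : H)) : G × H), ?_⟩
        have h1 : ((Quotient.out ((((Quotient.out y : G), (Quotient.out z : H)) : G × H) :
            (G × H) ⧸ (Q.prod R)) : G × H) : (G × H) ⧸ (Q.prod R)) =
            (((Quotient.out y : G), (Quotient.out z : H)) : G × H) := Quotient.out_eq _
        rw [QuotientGroup.eq, Subgroup.mem_prod] at h1
        refine Prod.ext ?_ ?_
        · have h2 := QuotientGroup.eq.2 h1.1
          exact h2.trans (Quotient.out_eq y)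
        · have h2 := QuotientGroup.eq.2 h1.2
          exact h2.trans (Quotient.out_eq z)
    refine Fintype.sum_bijective φ hφ _ _ fun x => ?_
    have hx : (Quotient.out x : G × H) = ((Quotient.out x : G × H).1, (Quotient.out x : G × H).2) := rfl
    have hinv : ((Quotient.out x : G × H))⁻¹ =
      ((Quotient.out x : G × H).1⁻¹, (Quotient.out x : G × H).2⁻¹) := rfl
    rw [hinv, of_pair, hx, of_pair, box_mul, box_mul]
    congr 1
    · exact conj_inv ha (Quotient.out_eq _).symm
    · exact conj_inv hb (Quotient.out_eq _).symm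

omit [Finite G] in
theorem exists_defect {e : MonoidAlgebra k G} {Q : Subgroup G} (h : InTrace e Q) :
    ∃ D : Subgroup G, IsDefect e D ∧ Nat.card D ≤ Nat.card Q := by
  classical
  have hex : ∃ n : ℕ, ∃ R : Subgroup G, InTrace e R ∧ Nat.card R = n := ⟨_, Q, h, rfl⟩
  obtain ⟨D, h1, h2⟩ := Nat.find_spec hex
  refine ⟨D, ⟨h1, fun R hR => ?_⟩, ?_⟩
  · rw [h2]
    exact Nat.find_min' hex ⟨R, hR, rfl⟩
  · rw [h2]
    exact Nat.find_min' hex ⟨Q, h, rfl⟩

end

/-- the tensor powers of order `2 ^ n` -/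
theorem powers [IsAlgClosed k] (P : Blk k → Prop) (hP : ∀ b, P b → P b.sq) (b : Blk k) (hb : P b)
    (D : Subgroup b.G) (hD : InTrace b.e D) (n : ℕ) :
    ∃ c : Blk k, P c ∧ Nat.card c.G = Nat.card b.G ^ 2 ^ n ∧ kB b.e ^ 2 ^ n ≤ kB c.e ∧
      ∃ Q : Subgroup c.G, InTrace c.e Q ∧ Nat.card Q = Nat.card D ^ 2 ^ n := by
  induction n with
  | zero => exact ⟨b, hb, by simp, by simp, D, hD, by simp⟩
  | succ n ih =>
    obtain ⟨c, h1, h2, h3, Q, h4, h5⟩ := ih
    refine ⟨c.sq, hP c h1, ?_, ?_, Q.prod Q, inTrace_box h4 h4, ?_⟩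
    · show Nat.card (c.G × c.G) = _
      rw [Nat.card_prod, h2, pow_succ, pow_mul, sq]
    · refine le_trans ?_ (kB_box c.e c.e)
      rw [pow_succ, pow_mul, sq]
      exact Nat.mul_le_mul h3 h3
    · have e1 : Nat.card (Q.prod Q) = Nat.card Q * Nat.card Q := by
        rw [Nat.card_congr (Subgroup.prodEquiv Q Q).toEquiv, Nat.card_prod]
      refine e1.trans ?_
      rw [h5, pow_succ, pow_mul, sq]

theorem root_bound {x M C : ℝ} (hM : 0 < M) (h : ∀ n : ℕ, x ^ 2 ^ n ≤ C * M ^ 2 ^ n) : x ≤ M := by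
  by_contra hlt
  push Not at hlt
  have h1 : 1 < x / M := by rwa [one_lt_div hM]
  have h2 : ∀ n : ℕ, (x / M) ^ 2 ^ n ≤ C := by
    intro n
    rw [div_pow, div_le_iff₀ (pow_pos hM _)]
    exact h n
  have h3 := tendsto_pow_atTop_atTop_of_one_lt h1
  obtain ⟨N, hN⟩ := (h3.eventually_gt_atTop C).exists_forall_of_atTop
  exact absurd (h2 N) (not_le.2 (hN (2 ^ N) Nat.lt_two_pow_self.le))

theorem general [IsAlgClosed k] (P : Blk k → Prop) (hP : ∀ b, P b → P b.sq) (c : ℝ) (hc : 0 ≤ c) :
    (∀ b : Blk k, P b → ∀ D : Subgroup b.G, IsDefect b.e D → (kB b.e : ℝ) ≤ (Nat.card D : ℝ) ^ c) ↔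
    ∀ ε : ℝ, 0 < ε → ∃ C : ℝ, ∀ b : Blk k, P b → ∀ D : Subgroup b.G, IsDefect b.e D →
      (kB b.e : ℝ) ≤ C * (Nat.card b.G : ℝ) ^ ε * (Nat.card D : ℝ) ^ c := by
  constructor
  · intro h ε hε
    refine ⟨1, fun b hb D hD => ?_⟩
    have h1 : (kB b.e : ℝ) ≤ (Nat.card D : ℝ) ^ c := h b hb D hD
    have h2 : (1 : ℝ) ≤ (Nat.card b.G : ℝ) ^ ε :=
      Real.one_le_rpow (by exact_mod_cast Nat.card_pos) hε.le
    have h3 : (0 : ℝ) ≤ (Nat.card D : ℝ) ^ c := by positivity
    nlinarith
  · intro h b hb D hD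
    have hg : (0 : ℝ) < Nat.card b.G := by exact_mod_cast Nat.card_pos
    have hd : (0 : ℝ) < Nat.card D := by exact_mod_cast Nat.card_pos
    have key : ∀ ε : ℝ, 0 < ε → (kB b.e : ℝ) ≤ (Nat.card b.G : ℝ) ^ ε * (Nat.card D : ℝ) ^ c := by
      intro ε hε
      obtain ⟨C, hC⟩ := h ε hε
      have hM : 0 < (Nat.card b.G : ℝ) ^ ε * (Nat.card D : ℝ) ^ c :=
        mul_pos (Real.rpow_pos_of_pos hg _) (Real.rpow_pos_of_pos hd _)
      refine root_bound (C := max C 0) hM fun n => ?_
      obtain ⟨c', h1, h2, h3, Q, h4, h5⟩ := powers P hP b hb D hD.1 n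
      obtain ⟨E, h6, h7⟩ := exists_defect h4
      have h8 := hC c' h1 E h6
      have h9 : ((kB b.e : ℝ)) ^ 2 ^ n ≤ kB c'.e := by exact_mod_cast h3
      have h10 : (Nat.card E : ℝ) ≤ (Nat.card D : ℝ) ^ 2 ^ n := by
        rw [h5] at h7
        exact_mod_cast h7
      have h11 : ((Nat.card c'.G : ℝ)) ^ ε = ((Nat.card b.G : ℝ) ^ ε) ^ 2 ^ n := by
        rw [h2]
        push_cast
        rw [← Real.rpow_natCast, ← Real.rpow_natCast, ← Real.rpow_mul hg.le, ← Real.rpow_mul hg.le,
          mul_comm]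
      have h12 : (Nat.card E : ℝ) ^ c ≤ ((Nat.card D : ℝ) ^ c) ^ 2 ^ n := by
        have e1 : ((Nat.card D : ℝ) ^ c) ^ 2 ^ n = ((Nat.card D : ℝ) ^ 2 ^ n) ^ c := by
          rw [← Real.rpow_natCast, ← Real.rpow_natCast, ← Real.rpow_mul hd.le, ← Real.rpow_mul hd.le,
            mul_comm]
        rw [e1]
        exact Real.rpow_le_rpow (Nat.cast_nonneg _) h10 hc
      calc ((kB b.e : ℝ)) ^ 2 ^ n ≤ kB c'.e := h9
        _ ≤ C * (Nat.card c'.G : ℝ) ^ ε * (Nat.card E : ℝ) ^ c := h8
        _ ≤ max C 0 * (Nat.card c'.G : ℝ) ^ ε * (Nat.card E : ℝ) ^ c := by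
          gcongr
          exact le_max_left _ _
        _ ≤ max C 0 * (Nat.card c'.G : ℝ) ^ ε * ((Nat.card D : ℝ) ^ c) ^ 2 ^ n := by gcongr
        _ = max C 0 * ((Nat.card b.G : ℝ) ^ ε * (Nat.card D : ℝ) ^ c) ^ 2 ^ n := by
          rw [h11, mul_pow]; ring
    have hlim : Filter.Tendsto
        (fun n : ℕ => (Nat.card b.G : ℝ) ^ (1 / ((n : ℝ) + 1)) * (Nat.card D : ℝ) ^ c)
        Filter.atTop (nhds ((Nat.card b.G : ℝ) ^ (0 : ℝ) * (Nat.card D : ℝ) ^ c)) := by
      refine Filter.Tendsto.mul_const _ ?_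
      exact (Real.continuousAt_const_rpow hg.ne').tendsto.comp tendsto_one_div_add_atTop_nhds_zero_nat
    rw [Real.rpow_zero, one_mul] at hlim
    exact ge_of_tendsto' hlim fun n => key _ (by positivity)

/-- **Brauer's `k(B)` conjecture and its asymptotic form.** -/
theorem result (k : Type) [Field k] [IsAlgClosed k] (P : Blk k → Prop) (hP : ∀ b, P b → P b.sq) :
    ((∀ b : Blk k, P b → ∀ D : Subgroup b.G, IsDefect b.e D → kB b.e ≤ Nat.card D) ↔
      ∀ ε : ℝ, 0 < ε → ∃ C : ℝ, ∀ b : Blk k, P b → ∀ D : Subgroup b.G, IsDefect b.e D →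
        (kB b.e : ℝ) ≤ C * (Nat.card b.G : ℝ) ^ ε * Nat.card D) ∧
    ∀ c : ℝ, 0 ≤ c →
      ((∀ b : Blk k, P b → ∀ D : Subgroup b.G, IsDefect b.e D → (kB b.e : ℝ) ≤ (Nat.card D : ℝ) ^ c) ↔
      ∀ ε : ℝ, 0 < ε → ∃ C : ℝ, ∀ b : Blk k, P b → ∀ D : Subgroup b.G, IsDefect b.e D →
        (kB b.e : ℝ) ≤ C * (Nat.card b.G : ℝ) ^ ε * (Nat.card D : ℝ) ^ c) := by
  refine ⟨?_, fun c hc => general P hP c hc⟩
  have h := general P hP 1 zero_le_one
  simp only [Real.rpow_one, Nat.cast_le] at h
  exact h

end Pool.Agent.Results.MP_a15589_al.Asymptotic
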